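import Mathlib
import Pool.Agent.X82.RainbowDefs
import Pool.Agent.X82.Wires

/-!
# Infinitely many connected graphs admit a non-monotone witness
-/

set_option autoImplicit false

namespace Pool.Agent.Results.MP_1c393c_co.PendantCycles

open Pool.Agent.X82.Rainbow

/-- `G` is a non-monotone witness for `H`: every proper edge colouring of `G` using exactly
`χ'(G)` colours contains a rainbow copy of `H`, but some proper edge colouring does not. -/
def IsWitness {V W : Type} (H : SimpleGraph W) (G : SimpleGraph V) : Prop :=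
  (∀ c : Sym2 V → ℕ, IsProper G c → numColours G c = chromaticIndex G → HasRainbowCopy H G c) ∧
    ∃ c : Sym2 V → ℕ, IsProper G c ∧ ¬ HasRainbowCopy H G c

/-- the 4-cycle `0,1,2,3` with `t` pendant edges at the vertex `0` -/
def H (t : ℕ) : SimpleGraph (Fin 4 ⊕ Fin t) where
  Adj x y := match x, y with
    | Sum.inl u, Sum.inl v => (SimpleGraph.cycleGraph 4).Adj u v
    | Sum.inl u, Sum.inr _ => u = 0
    | Sum.inr _, Sum.inl v => v = 0
    | Sum.inr _, Sum.inr _ => False
  symm := ⟨by
    rintro (u | u) (v | v) h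
    · exact SimpleGraph.Adj.symm h
    · exact h
    · exact h
    · exact h⟩
  loopless := ⟨by
    rintro (u | u) h
    · exact SimpleGraph.irrefl _ h
    · exact h⟩

/-- attach `d` pendant vertices to every vertex of `G` -/
def P {V : Type} (G : SimpleGraph V) (d : ℕ) : SimpleGraph (V ⊕ (V × Fin d)) where
  Adj x y := match x, y with
    | Sum.inl u, Sum.inl v => G.Adj u v
    | Sum.inl u, Sum.inr v => u = v.1
    | Sum.inr u, Sum.inl v => v = u.1
    | Sum.inr _, Sum.inr _ => False
  symm := ⟨by
    rintro (u | u) (v | v) h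
    · exact SimpleGraph.Adj.symm h
    · exact h
    · exact h
    · exact h⟩
  loopless := ⟨by
    rintro (u | u) h
    · exact SimpleGraph.irrefl _ h
    · exact h⟩

variable {V : Type}

/-- extend an edge colouring to the pendant edges -/
def ext (d : ℕ) (c : Sym2 V → ℕ) (b : Fin d → ℕ) : Sym2 (V ⊕ (V × Fin d)) → ℕ :=
  Sym2.lift ⟨fun x y => match x, y with
    | Sum.inl u, Sum.inl v => c s(u, v)
    | Sum.inl _, Sum.inr v => b v.2
    | Sum.inr v, Sum.inl _ => b v.2
    | Sum.inr _, Sum.inr _ => 0, by
    rintro (u | u) (v | v)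
    · show c s(u, v) = c s(v, u)
      rw [Sym2.eq_swap]
    · rfl
    · rfl
    · rfl⟩

theorem ext_proper {G : SimpleGraph V} {d : ℕ} {c : Sym2 V → ℕ} {b : Fin d → ℕ}
    (hc : IsProper G c) (hb : Function.Injective b) (hcb : ∀ e ∈ G.edgeSet, ∀ j, c e ≠ b j) :
    IsProper (P G d) (ext d c b) := by
  rintro (u | u) (v | v) (w | w) h1 h2 h3
  · exact hc u v w h1 h2 (fun h => h3 (by rw [h]))
  · exact hcb _ h1 _
  · exact (hcb _ h2 _).symm
  · intro h
    obtain ⟨v1, v2⟩ := v
    obtain ⟨w1, w2⟩ := w
    have e1 : u = v1 := h1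
    have e2 : u = w1 := h2
    have e3 : v2 = w2 := hb h
    apply h3
    rw [← e1, ← e2, e3]
  · have e1 : v = u.1 := h1
    have e2 : w = u.1 := h2
    exact absurd (by rw [e1, e2]) h3
  · exact h2.elim
  · exact h1.elim
  · exact h1.elim

theorem restrict_proper {G : SimpleGraph V} {d : ℕ} {c : Sym2 (V ⊕ (V × Fin d)) → ℕ}
    (hc : IsProper (P G d) c) : IsProper G (fun e => c (e.map Sum.inl)) := by
  intro u v w h1 h2 h3
  exact hc (Sum.inl u) (Sum.inl v) (Sum.inl w) h1 h2 (fun h => h3 (Sum.inl_injective h))

theorem restrict_num [Finite V] {G : SimpleGraph V} {d : ℕ} (c : Sym2 (V ⊕ (V × Fin d)) → ℕ) :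
    numColours G (fun e => c (e.map Sum.inl)) ≤ numColours (P G d) c := by
  unfold numColours
  refine Set.ncard_le_ncard ?_ (Set.toFinite _)
  rintro _ ⟨e, he, rfl⟩
  refine ⟨e.map Sum.inl, ?_, rfl⟩
  revert he
  refine Sym2.ind (fun u v => ?_) e
  intro h
  exact h

/-- a rainbow 4-cycle extends to a rainbow copy of `H t` when there are `t + 2` pendant edges at
every vertex -/
theorem extend_rainbow {G : SimpleGraph V} {t : ℕ} {c : Sym2 (V ⊕ (V × Fin (t + 2))) → ℕ}
    (hc : IsProper (P G (t + 2)) c) (hn : ¬ NoRainbow G (fun e => c (e.map Sum.inl))) :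
    HasRainbowCopy (H t) (P G (t + 2)) c := by
  classical
  obtain ⟨x, hx, ha, hr⟩ := exists_c4 (restrict_proper hc) hn
  let g : Fin (t + 2) → ℕ := fun j => c s(Sum.inl (x 0), Sum.inr (x 0, j))
  have hg : Function.Injective g := by
    intro i j hij
    by_contra hne
    refine hc (Sum.inl (x 0)) (Sum.inr (x 0, i)) (Sum.inr (x 0, j)) rfl rfl ?_ hij
    intro h
    apply hne
    have := Sum.inr_injective h
    exact (Prod.mk.injEq _ _ _ _ ▸ this).2
  let q1 : ℕ := c s(Sum.inl (x 1), Sum.inl (x 2))
  let q2 : ℕ := c s(Sum.inl (x 2), Sum.inl (x 3))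
  let B : Finset (Fin (t + 2)) := Finset.univ.filter (fun j => g j = q1 ∨ g j = q2)
  have hB : B.card ≤ 2 := by
    have h1 : B.image g ⊆ {q1, q2} := by
      intro y hy
      rw [Finset.mem_image] at hy
      obtain ⟨j, hj, rfl⟩ := hy
      have := (Finset.mem_filter.mp hj).2
      simpa using this
    calc B.card = (B.image g).card := (Finset.card_image_of_injective _ hg).symm
      _ ≤ ({q1, q2} : Finset ℕ).card := Finset.card_le_card h1
      _ ≤ 2 := Finset.card_le_two
  have hcard : Fintype.card (Fin t) ≤ Fintype.card {j // j ∉ B} := by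
    rw [Fintype.card_fin, Fintype.card_subtype_compl, Fintype.card_fin, Fintype.card_coe]
    omega
  obtain ⟨σ⟩ := Function.Embedding.nonempty_of_card_le hcard
  have hσ : ∀ j, g (σ j).1 ≠ q1 ∧ g (σ j).1 ≠ q2 := by
    intro j
    have := (σ j).2
    simp only [B, Finset.mem_filter, Finset.mem_univ, true_and, not_or] at this
    exact this
  let f : Fin 4 ⊕ Fin t → V ⊕ (V × Fin (t + 2)) := fun z => match z with
    | Sum.inl i => Sum.inl (x i)
    | Sum.inr j => Sum.inr (x 0, (σ j).1)
  refine ⟨f, ?_, ?_, ?_⟩
  · rintro (i | i) (j | j) h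
    · have h' := Sum.inl_injective (show Sum.inl (x i) = Sum.inl (x j) from h)
      rw [hx h']
    · exact absurd h (by simp [f])
    · exact absurd h (by simp [f])
    · have h' := Sum.inr_injective
        (show Sum.inr (x 0, (σ i).1) = Sum.inr (x 0, (σ j).1) from h)
      have h2 := (Prod.mk.injEq _ _ _ _ ▸ h').2
      rw [σ.injective (Subtype.ext h2)]
  · rintro (i | i) (j | j) h
    · exact ha i j h
    · have : i = 0 := h
      rw [this]
      rfl
    · have : j = 0 := h
      rw [this]
      rfl
    · exact h.elim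
  · -- rainbow
    have hedge : ∀ e ∈ (H t).edgeSet, (∃ e1 ∈ (SimpleGraph.cycleGraph 4).edgeSet,
        e = e1.map Sum.inl) ∨ ∃ j, e = s(Sum.inl 0, Sum.inr j) := by
      intro e
      refine Sym2.ind (fun u v => ?_) e
      intro h
      rcases u with u | u <;> rcases v with v | v
      · left
        exact ⟨s(u, v), h, rfl⟩
      · right
        have : u = 0 := h
        exact ⟨v, by rw [this]⟩
      · right
        have : v = 0 := h
        exact ⟨u, by rw [this, Sym2.eq_swap]⟩
      · exact h.elim
    have hmixed : ∀ e1 ∈ (SimpleGraph.cycleGraph 4).edgeSet, ∀ j : Fin t,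
        c ((e1.map x).map Sum.inl) ≠ g (σ j).1 := by
      intro e1 he1 j
      have prop : ∀ v, G.Adj (x 0) v → c s(Sum.inl (x 0), Sum.inl v) ≠ g (σ j).1 := by
        intro v hv
        exact hc (Sum.inl (x 0)) (Sum.inl v) (Sum.inr (x 0, (σ j).1)) hv rfl (by simp)
      rcases c4_edges he1 with rfl | rfl | rfl | rfl
      · exact prop _ (ha _ _ c4_adj01)
      · exact (hσ j).1.symm
      · exact (hσ j).2.symm
      · have := prop _ (ha _ _ c4_adj30).symm
        rw [Sym2.eq_swap] at this
        exact this
    have hf1 : ∀ e1 : Sym2 (Fin 4), ((e1.map Sum.inl : Sym2 (Fin 4 ⊕ Fin t)).map f) =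
        (e1.map x).map Sum.inl := by
      intro e1
      refine Sym2.ind (fun u v => ?_) e1
      rfl
    intro e he e' he' h
    rcases hedge e he with ⟨e1, he1, rfl⟩ | ⟨j, rfl⟩ <;>
      rcases hedge e' he' with ⟨e2, he2, rfl⟩ | ⟨j', rfl⟩
    · rw [hf1, hf1] at h
      rw [hr e1 he1 e2 he2 h]
    · rw [hf1] at h
      exact absurd h (hmixed e1 he1 j')
    · rw [hf1] at h
      exact absurd h.symm (hmixed e2 he2 j)
    · have h2 : g (σ j).1 = g (σ j').1 := h
      have h3 := hg h2
      rw [σ.injective (Subtype.ext h3)]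

/-- a colouring of `G` without rainbow 4-cycles gives a colouring of `P G d` without rainbow
copies of `H t` -/
theorem extend_no_rainbow {G : SimpleGraph V} {t d : ℕ} {c : Sym2 V → ℕ} {b : Fin d → ℕ}
    (hn : NoRainbow G c) : ¬ HasRainbowCopy (H t) (P G d) (ext d c b) := by
  rintro ⟨f, hf, ha, hr⟩
  have hinl : ∀ i : Fin 4, ∃ v, f (Sum.inl i) = Sum.inl v := by
    intro i
    have a1 : (SimpleGraph.cycleGraph 4).Adj i (i + 1) := by
      rw [SimpleGraph.cycleGraph_adj]; revert i; decide
    have a2 : (SimpleGraph.cycleGraph 4).Adj i (i + 3) := by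
      rw [SimpleGraph.cycleGraph_adj]; revert i; decide
    have b1 := ha (Sum.inl i) (Sum.inl (i + 1)) a1
    have b2 := ha (Sum.inl i) (Sum.inl (i + 3)) a2
    have hne : f (Sum.inl (i + 1)) ≠ f (Sum.inl (i + 3)) := by
      intro h
      have h1 := Sum.inl_injective (hf h)
      have key : ∀ i : Fin 4, i + 1 ≠ i + 3 := by decide
      exact key i h1
    rcases hi : f (Sum.inl i) with v | v
    · exact ⟨v, rfl⟩
    · exfalso
      rw [hi] at b1 b2
      rcases h1 : f (Sum.inl (i + 1)) with w | w <;> rw [h1] at b1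
      · rcases h2 : f (Sum.inl (i + 3)) with w' | w' <;> rw [h2] at b2
        · have e1 : w = v.1 := b1
          have e2 : w' = v.1 := b2
          apply hne
          rw [h1, h2, e1, e2]
        · exact b2
      · exact b1
  choose x hx using hinl
  refine no_c4 hn x ?_ ?_ ?_
  · intro i j hij
    have : f (Sum.inl i) = f (Sum.inl j) := by rw [hx, hx, hij]
    exact Sum.inl_injective (hf this)
  · intro i j hij
    have := ha (Sum.inl i) (Sum.inl j) hij
    rw [hx, hx] at this
    exact this
  · intro e he e' he' hcc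
    have hm : ∀ e1 : Sym2 (Fin 4), ext d c b ((e1.map Sum.inl : Sym2 (Fin 4 ⊕ Fin t)).map f) =
        c (e1.map x) := by
      intro e1
      refine Sym2.ind (fun u v => ?_) e1
      show ext d c b s(f (Sum.inl u), f (Sum.inl v)) = c s(x u, x v)
      rw [hx, hx]
      rfl
    have hme : ∀ e1 ∈ (SimpleGraph.cycleGraph 4).edgeSet,
        (e1.map Sum.inl : Sym2 (Fin 4 ⊕ Fin t)) ∈ (H t).edgeSet := by
      intro e1
      refine Sym2.ind (fun u v => ?_) e1
      intro h
      exact h
    have := hr _ (hme e he) _ (hme e' he') (by rw [hm, hm]; exact hcc)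
    exact Sym2.map.injective Sum.inl_injective this

/-- Infinitely many connected graphs admit a non-monotone witness: for every `t` the graph `H t`
(a 4-cycle with `t` pendant edges at one vertex) is connected and has a finite non-monotone
witness, and the graphs `H t` are pairwise non-isomorphic. -/
theorem result :
    (∀ t : ℕ, (H t).Connected ∧ ∃ (V : Type) (_ : Fintype V) (G : SimpleGraph V),
      IsWitness (H t) G) ∧
    ∀ s t : ℕ, Nonempty (H s ≃g H t) → s = t := by
  refine ⟨fun t => ⟨?_, ?_⟩, ?_⟩
  · have h0 : ∀ z, (H t).Reachable (Sum.inl 0) z := by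
      have r01 : (H t).Adj (Sum.inl 0) (Sum.inl 1) := c4_adj01
      have r12 : (H t).Adj (Sum.inl 1) (Sum.inl 2) := c4_adj12
      have r30 : (H t).Adj (Sum.inl 0) (Sum.inl 3) := c4_adj30.symm
      rintro (i | j)
      · fin_cases i
        · exact SimpleGraph.Reachable.refl _
        · exact r01.reachable
        · exact r01.reachable.trans r12.reachable
        · exact r30.reachable
      · have : (H t).Adj (Sum.inl 0) (Sum.inr j) := rfl
        exact this.reachable
    have : Nonempty (Fin 4 ⊕ Fin t) := ⟨Sum.inl 0⟩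
    exact ⟨fun u v => (h0 u).symm.trans (h0 v)⟩
  · let m := 27 + t
    let G := Pool.Agent.X82.Wires.G m
    have hX : chromaticIndex (P G (t + 2)) ≤ 24 + (t + 2) := by
      obtain ⟨c, hp, hc⟩ := Pool.Agent.X82.Wires.few_colours m
      have hpr : IsProper (P G (t + 2)) (ext (t + 2) c (fun j => 24 + j.val)) := by
        refine ext_proper hp ?_ ?_
        · intro i j hij
          have : 24 + i.val = 24 + j.val := hij
          exact Fin.ext (by omega)
        · intro e he j h
          have h1 := hc e he
          have h2 : c e = 24 + j.val := h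
          omega
      refine (index_le hpr).trans (numColours_le ?_)
      intro e
      refine Sym2.ind (fun u v => ?_) e
      intro h
      rcases u with u | u <;> rcases v with v | v
      · have h1 := hc s(u, v) h
        show c s(u, v) < _
        omega
      · show 24 + v.2.val < _
        have := v.2.isLt
        omega
      · show 24 + u.2.val < _
        have := u.2.isLt
        omega
      · exact h.elim
    refine ⟨_, inferInstance, P G (t + 2), ?_, ?_⟩
    · intro c hp hc
      refine extend_rainbow hp ?_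
      intro hn
      have h1 : m ≤ numColours G (fun e => c (e.map Sum.inl)) :=
        Pool.Agent.X82.Wires.many_colours (restrict_proper hp) hn
      have h2 := restrict_num (G := G) (d := t + 2) c
      omega
    · obtain ⟨c, hp, hn⟩ := Pool.Agent.X82.Wires.no_rainbow m
      refine ⟨ext (t + 2) (fun e => c e + (t + 2)) (fun j => j.val), ?_, ?_⟩
      · refine ext_proper ?_ Fin.val_injective ?_
        · intro u v w h1 h2 h3 h4
          exact hp u v w h1 h2 h3 (Nat.add_right_cancel h4)
        · intro e _ j h
          have := j.isLt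
          have h2 : c e + (t + 2) = j.val := h
          omega
      · refine extend_no_rainbow ?_
        intro x0 x1 x2 x3 h0 h1 h2 h3 h4 h5
        rcases hn x0 x1 x2 x3 h0 h1 h2 h3 h4 h5 with h | h
        · exact Or.inl (by show c _ + _ = c _ + _; rw [h])
        · exact Or.inr (by show c _ + _ = c _ + _; rw [h])
  · rintro s t ⟨φ⟩
    have := Fintype.card_congr φ.toEquiv
    simp only [Fintype.card_sum, Fintype.card_fin] at this
    omega

end Pool.Agent.Results.MP_1c393c_co.PendantCycles
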